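import Pool.Agent.Work.MP_7cd6c4_gt.Curve

open scoped RealInnerProductSpace ENNReal

namespace Pool.Agent.Results.MP_7cd6c4_gt.LowerBound

/-- Every continuous path that starts at the centre of the unit ball of Euclidean 3-space and
meets every closed halfspace cut off by a supporting plane has length at least `11.43`. -/
theorem result (γ : ℝ → EuclideanSpace ℝ (Fin 3)) (hcont : ContinuousOn γ (Set.Icc 0 1))
    (hstart : γ 0 = 0)
    (hmeet : ∀ u : EuclideanSpace ℝ (Fin 3), ‖u‖ = 1 →
      ∃ t ∈ Set.Icc (0:ℝ) 1, 1 ≤ inner ℝ (γ t) u) :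
    ENNReal.ofReal 11.43 ≤ eVariationOn γ (Set.Icc 0 1) := by
  have h := Pool.Agent.EscapeBall.curve_lower γ hcont hstart hmeet
  have h2 : (11.43 : ℝ) = Pool.Agent.EscapeBall.lowBound := by
    unfold Pool.Agent.EscapeBall.lowBound
    norm_num
  rw [h2]
  exact h

end Pool.Agent.Results.MP_7cd6c4_gt.LowerBound
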