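import Pool.Agent.Work.MP_7cd6c4_gt.Upper

open scoped RealInnerProductSpace ENNReal

namespace Pool.Agent.Results.MP_7cd6c4_gt.UpperBound

open Pool.Agent.EscapeBall in
/-- There is a continuous path that starts at the centre of the unit ball of Euclidean 3-space,
meets every closed halfspace cut off by a supporting plane, and has length at most `11.573`. -/
theorem result :
    ∃ γ : ℝ → EuclideanSpace ℝ (Fin 3), ContinuousOn γ (Set.Icc 0 1) ∧ γ 0 = 0 ∧
      (∀ u : EuclideanSpace ℝ (Fin 3), ‖u‖ = 1 →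
        ∃ t ∈ Set.Icc (0:ℝ) 1, 1 ≤ inner ℝ (γ t) u) ∧
      eVariationOn γ (Set.Icc 0 1) ≤ ENNReal.ofReal 11.573 := by
  refine ⟨polyPath 180 vpt, (continuous_polyPath 180 vpt).continuousOn, ?_, ?_, ?_⟩
  · have h := polyPath_vertex 180 vpt (j := 0) (by norm_num) (by norm_num)
    simp only [Nat.cast_zero, zero_div] at h
    rw [h, vpt_zero]
  · intro u hu
    obtain ⟨i, hi, h1⟩ := sees_vpt u hu
    refine ⟨(i:ℝ) / (180:ℕ), ⟨by positivity, ?_⟩, ?_⟩
    · rw [div_le_one (by norm_num)]
      exact_mod_cast hi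
    · rw [polyPath_vertex 180 vpt hi (by norm_num)]
      exact h1
  · refine (eVariationOn_polyPath 180 vpt).trans ?_
    exact ENNReal.ofReal_le_ofReal len_vpt

end Pool.Agent.Results.MP_7cd6c4_gt.UpperBound
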